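import Pool.Agent.KF74.Sq1

/-! # KF74/Lin (MP_82a190_co, helper74): the linear term and the codegree term -/

namespace Pool.Agent.KF74

open Finset

variable {n : ℕ} (G : Finset (Finset (Fin n))) (y : Finset (Fin n) → ℝ)

theorem card_R3 {a b c : Fin n} (h : inj3 a b c) : ((R3 a b c).card : ℝ) = n - 3 := by
  obtain ⟨h1, h2, h3⟩ := h
  have h4 : R3 a b c = univ \ {a, b, c} := by
    ext z
    simp [mem_R3]
  have h5 : ({a, b, c} : Finset (Fin n)).card = 3 := Finset.card_eq_three.2 ⟨a, b, c, h1, h2, h3, rfl⟩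
  have h6 : 3 ≤ n := by
    have := Finset.card_le_univ ({a, b, c} : Finset (Fin n))
    rw [h5, Fintype.card_fin] at this
    exact this
  rw [h4, Finset.card_sdiff_of_subset (Finset.subset_univ _), h5, Finset.card_univ, Fintype.card_fin,
    Nat.cast_sub h6]
  norm_num

theorem six_orders {u v w : Fin n} (h1 : u ≠ v) (h2 : u ≠ w) (h3 : v ≠ w) :
    (univ.filter fun p : Fin n × Fin n × Fin n => ({p.1, p.2.1, p.2.2} : Finset (Fin n)) = {u, v, w}) =
      {(u, v, w), (u, w, v), (v, u, w), (v, w, u), (w, u, v), (w, v, u)} := by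
  ext ⟨a, b, c⟩
  simp only [Finset.mem_filter, Finset.mem_univ, true_and, Finset.mem_insert, Finset.mem_singleton, Prod.mk.injEq]
  constructor
  · intro h
    have ha : a ∈ ({u, v, w} : Finset (Fin n)) := by rw [← h]; simp
    have hb : b ∈ ({u, v, w} : Finset (Fin n)) := by rw [← h]; simp
    have hc : c ∈ ({u, v, w} : Finset (Fin n)) := by rw [← h]; simp
    have hu : u ∈ ({a, b, c} : Finset (Fin n)) := by rw [h]; simp
    have hv : v ∈ ({a, b, c} : Finset (Fin n)) := by rw [h]; simp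
    have hw : w ∈ ({a, b, c} : Finset (Fin n)) := by rw [h]; simp
    simp only [Finset.mem_insert, Finset.mem_singleton] at ha hb hc hu hv hw
    have h1' := h1.symm
    have h2' := h2.symm
    have h3' := h3.symm
    rcases ha with rfl | rfl | rfl <;> rcases hb with rfl | rfl | rfl <;> rcases hc with rfl | rfl | rfl <;>
      simp_all
  · rintro (⟨rfl, rfl, rfl⟩ | ⟨rfl, rfl, rfl⟩ | ⟨rfl, rfl, rfl⟩ | ⟨rfl, rfl, rfl⟩ | ⟨rfl, rfl, rfl⟩ | ⟨rfl, rfl, rfl⟩) <;>
      first | rfl | (ext z; simp only [Finset.mem_insert, Finset.mem_singleton]; tauto)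

theorem six_card {u v w : Fin n} (h1 : u ≠ v) (h2 : u ≠ w) (h3 : v ≠ w) :
    (univ.filter fun p : Fin n × Fin n × Fin n => ({p.1, p.2.1, p.2.2} : Finset (Fin n)) = {u, v, w}).card = 6 := by
  rw [six_orders h1 h2 h3]
  have h1' := h1.symm
  have h2' := h2.symm
  have h3' := h3.symm
  rw [Finset.card_insert_of_notMem, Finset.card_insert_of_notMem, Finset.card_insert_of_notMem,
    Finset.card_insert_of_notMem, Finset.card_insert_of_notMem, Finset.card_singleton]
  all_goals simp [h1, h2, h3, h1', h2', h3']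

theorem sum_triples (F : Finset (Fin n) → ℝ) (hF : ∀ e, e.card ≠ 3 → F e = 0) :
    ∑ a : Fin n, ∑ b : Fin n, ∑ c : Fin n, F {a, b, c} = 6 * ∑ e, F e := by
  have h1 : ∑ a : Fin n, ∑ b : Fin n, ∑ c : Fin n, F {a, b, c} =
      ∑ p : Fin n × Fin n × Fin n, F {p.1, p.2.1, p.2.2} := by
    rw [Fintype.sum_prod_type]
    refine Finset.sum_congr rfl fun a _ => ?_
    rw [Fintype.sum_prod_type]
  rw [h1, ← Finset.sum_fiberwise_of_maps_to (s := univ) (t := univ)
    (g := fun p : Fin n × Fin n × Fin n => ({p.1, p.2.1, p.2.2} : Finset (Fin n))) (fun _ _ => Finset.mem_univ _)]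
  rw [Finset.mul_sum]
  refine Finset.sum_congr rfl fun e _ => ?_
  by_cases he : e.card = 3
  · obtain ⟨u, v, w, h2, h3, h4, rfl⟩ := Finset.card_eq_three.1 he
    rw [Finset.sum_congr rfl (g := fun _ => F {u, v, w})]
    · rw [Finset.sum_const, six_card h2 h3 h4]
      simp
    · intro p hp
      rw [(Finset.mem_filter.1 hp).2]
  · rw [hF e he, mul_zero]
    refine Finset.sum_eq_zero fun p hp => ?_
    rw [(Finset.mem_filter.1 hp).2, hF e he]

/-- the total mass -/
theorem YY_eq (hG : ∀ e ∈ G, e.card = 3) : YY G y = 6 * ∑ e ∈ G, |y e| := by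
  unfold YY
  rw [sum_triples (fun e => rad G y e ^ 2)]
  · simp only [rad_sq, Finset.sum_ite_mem, Finset.univ_inter]
  · intro e he
    rw [rad_sq, if_neg]
    exact fun h => he (hG e h)

/-- **The linear term.** -/
theorem lin_eq (hG : ∀ e ∈ G, e.card = 3) (K : Cert) :
    ∑ x ∈ J5 (Fin n), K.lin (cx G y x) (rx G y x) =
      ((n : ℝ) - 3) * (n - 4) * (6 * ∑ e ∈ G, y e - K.eps * YY G y) := by
  rw [sum_J5]
  let L : Finset (Fin n) → ℝ := fun e => (sg (col G y e) - K.eps) * rad G y e ^ 2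
  have hL : ∀ a b c d e, K.lin (cx G y ![a, b, c, d, e]) (rx G y ![a, b, c, d, e]) = L {a, b, c} := by
    intro a b c d e
    unfold Cert.lin
    rw [cx_012, rx_012]
  simp only [hL, Finset.sum_const, nsmul_eq_mul]
  have h1 : ∀ a b c : Fin n, (if inj3 a b c then ((R3 a b c).card : ℝ) * ((R3 a b c).card * L {a, b, c}) -
      (R3 a b c).card * L {a, b, c} else 0) = ((n : ℝ) - 3) * (n - 4) * L {a, b, c} := by
    intro a b c
    split_ifs with h
    · rw [card_R3 h]
      ring
    · have h2 : rad G y {a, b, c} = 0 := by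
        by_contra h3
        exact h (inj3_of_rad G y hG h3)
      simp [L, h2]
  simp only [h1, ← Finset.mul_sum]
  congr 1
  rw [sum_triples L]
  · rw [YY_eq G y hG, ← mul_assoc, mul_comm K.eps 6, mul_assoc, ← mul_sub]
    congr 1
    rw [Finset.mul_sum, ← Finset.sum_sub_distrib]
    have h2 : ∀ e, L e = if e ∈ G then y e - K.eps * |y e| else 0 := by
      intro e
      simp only [L, sub_mul]
      rw [sg_col, rad_sq]
      split_ifs <;> ring
    simp only [h2, Finset.sum_ite_mem, Finset.univ_inter]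
  · intro e he
    have h2 : rad G y e = 0 := by
      unfold rad
      rw [if_neg]
      exact fun h => he (hG e h)
    simp [L, h2]

/-- the edges containing a pair -/
theorem pair_deg (hG : ∀ e ∈ G, e.card = 3) {a b : Fin n} (hab : a ≠ b) :
    (G.filter (fun e => ({a, b} : Finset (Fin n)) ⊆ e)).card ≤
      (univ.filter fun z : Fin n => z ≠ a ∧ z ≠ b ∧ ({a, b, z} : Finset (Fin n)) ∈ G).card := by
  refine le_trans (Finset.card_le_card ?_) (Finset.card_image_le (f := fun z => ({a, b, z} : Finset (Fin n))))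
  intro e he
  rw [Finset.mem_filter] at he
  obtain ⟨he1, he2⟩ := he
  have h1 := hG e he1
  have h2 : (e \ {a, b}).card = 1 := by
    rw [Finset.card_sdiff_of_subset he2, h1, Finset.card_pair hab]
  obtain ⟨z, hz⟩ := Finset.card_eq_one.1 h2
  have h3 : z ∈ e \ {a, b} := by rw [hz]; simp
  rw [Finset.mem_sdiff, Finset.mem_insert, Finset.mem_singleton, not_or] at h3
  have h4 : ({a, b, z} : Finset (Fin n)) = e := by
    have h5 : e = {a, b} ∪ (e \ {a, b}) := (Finset.union_sdiff_of_subset he2).symm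
    rw [h5, hz]
    ext x
    simp only [Finset.mem_insert, Finset.mem_singleton, Finset.mem_union]
    tauto
  rw [Finset.mem_image]
  refine ⟨z, ?_, h4⟩
  rw [Finset.mem_filter]
  exact ⟨Finset.mem_univ _, h3.2.1, h3.2.2, by rw [h4]; exact he1⟩

/-- the codegree condition, at the point `4` -/
theorem cod_pt (hG : ∀ e ∈ G, e.card = 3) {mu : ℝ}
    (hdeg : ∀ S : Finset (Fin n), S.card = 3 - 1 → (1 - mu) * (n : ℝ) ≤ ((G.filter (fun e => S ⊆ e)).card : ℝ))
    {a b c d : Fin n} (h : inj3 a b c) :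
    -(4 * mu) ≤ (∑ e ∈ R3 a b c, (mu - if col G y {a, b, e} = 0 then (1 : ℝ) else 0)) -
      (mu - if col G y {a, b, d} = 0 then (1 : ℝ) else 0) := by
  have h1 := hdeg {a, b} (Finset.card_pair h.1)
  have h2 : ((G.filter (fun e => ({a, b} : Finset (Fin n)) ⊆ e)).card : ℝ) ≤
      ((univ.filter fun z : Fin n => z ≠ a ∧ z ≠ b ∧ ({a, b, z} : Finset (Fin n)) ∈ G).card : ℝ) := by
    exact_mod_cast pair_deg G hG h.1
  -- the missing points
  let M : Finset (Fin n) := univ.filter fun z : Fin n => z ≠ a ∧ z ≠ b ∧ ({a, b, z} : Finset (Fin n)) ∉ G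
  let P : Finset (Fin n) := univ.filter fun z : Fin n => z ≠ a ∧ z ≠ b ∧ ({a, b, z} : Finset (Fin n)) ∈ G
  have h3 : (M.card : ℝ) + P.card ≤ n := by
    have h4 : Disjoint M P := by
      rw [Finset.disjoint_left]
      intro z hz hz'
      simp only [M, P, Finset.mem_filter] at hz hz'
      exact hz.2.2.2 hz'.2.2.2
    have h5 : (M ∪ P).card ≤ n := by
      have := Finset.card_le_univ (M ∪ P)
      rwa [Fintype.card_fin] at this
    rw [Finset.card_union_of_disjoint h4] at h5
    exact_mod_cast h5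
  have h4 : ∑ e ∈ R3 a b c, (if col G y {a, b, e} = 0 then (1 : ℝ) else 0) ≤ M.card := by
    rw [← Finset.sum_filter, Finset.sum_const, nsmul_eq_mul, mul_one]
    norm_cast
    refine Finset.card_le_card fun z hz => ?_
    rw [Finset.mem_filter, mem_R3] at hz
    simp only [M, Finset.mem_filter, Finset.mem_univ, true_and]
    refine ⟨hz.1.1, hz.1.2.1, fun h5 => ?_⟩
    have h6 := hz.2
    unfold col at h6
    rw [if_pos h5] at h6
    split_ifs at h6 <;> simp at h6
  have h5 : (∑ e ∈ R3 a b c, (mu - if col G y {a, b, e} = 0 then (1 : ℝ) else 0)) =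
      (n - 3) * mu - ∑ e ∈ R3 a b c, (if col G y {a, b, e} = 0 then (1 : ℝ) else 0) := by
    rw [Finset.sum_sub_distrib, Finset.sum_const, nsmul_eq_mul, card_R3 h]
  rw [h5]
  have h6 : (if col G y {a, b, d} = 0 then (1 : ℝ) else 0) ≥ 0 := by split_ifs <;> norm_num
  have h7 : (P.card : ℝ) = ((univ.filter fun z : Fin n => z ≠ a ∧ z ≠ b ∧ ({a, b, z} : Finset (Fin n)) ∈ G).card : ℝ) :=
    rfl
  nlinarith

/-- **The codegree terms are almost nonnegative.** -/
theorem cod_lower (hG : ∀ e ∈ G, e.card = 3) (K : Cert) (hK : K.Valid)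
    (hdeg : ∀ S : Finset (Fin n), S.card = 3 - 1 → (1 - K.mu) * (n : ℝ) ≤ ((G.filter (fun e => S ⊆ e)).card : ℝ))
    {B : ℝ} (hB : ∀ κ p m m', |K.g κ p m m'| ≤ B) :
    -(64 * K.mu * B * n * YY G y) ≤ ∑ x ∈ J5 (Fin n), K.cod (cx G y x) (rx G y x) := by
  have hB0 : 0 ≤ B := (abs_nonneg _).trans (hB 0 (0, 0, 0) 0 0)
  rw [sum_J5]
  let g4 : Fin n → Fin n → Fin n → Fin n → ℝ := fun a b c d =>
    ∑ m, ∑ m', K.g (col G y {a, b, c}) (pn G y a b c d) m m' * (mn G y a b c d m * mn G y a b c d m')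
  have hmn : ∀ a b c d m, 0 ≤ mn G y a b c d m := by
    intro a b c d m
    fin_cases m <;> exact rad_nonneg G y _
  have hg0 : ∀ a b c d, 0 ≤ g4 a b c d := fun a b c d => hK.g_nonneg _ _ _ (hmn a b c d)
  have hg1 : ∀ a b c d, g4 a b c d ≤ 4 * B * ∑ m, mn G y a b c d m ^ 2 := fun a b c d =>
    (le_abs_self _).trans (quad4_le _ (fun m m' => hB _ _ _ _) _)
  have hc : ∀ a b c d e, K.cod (cx G y ![a, b, c, d, e]) (rx G y ![a, b, c, d, e]) =
      (K.mu - if col G y {a, b, e} = 0 then 1 else 0) * g4 a b c d := by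
    intro a b c d e
    unfold Cert.cod
    rw [cx_012, cx_014, pat3, mag3]
  have h1 : ∀ a b c : Fin n, -(4 * K.mu * (4 * B * ∑ z, ∑ m, mn G y a b c z m ^ 2)) ≤
      if inj3 a b c then
        (∑ d ∈ R3 a b c, ∑ e ∈ R3 a b c, K.cod (cx G y ![a, b, c, d, e]) (rx G y ![a, b, c, d, e])) -
          ∑ d ∈ R3 a b c, K.cod (cx G y ![a, b, c, d, d]) (rx G y ![a, b, c, d, d]) else 0 := by
    intro a b c
    have hmu := hK.mu_nonneg
    have h0 : 0 ≤ 4 * K.mu * (4 * B * ∑ z, ∑ m, mn G y a b c z m ^ 2) := by positivity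
    split_ifs with h
    · simp only [hc]
      rw [← Finset.sum_sub_distrib]
      have h2 : ∀ d ∈ R3 a b c, -(4 * K.mu * (4 * B * ∑ m, mn G y a b c d m ^ 2)) ≤
          ∑ e ∈ R3 a b c, (K.mu - if col G y {a, b, e} = 0 then 1 else 0) * g4 a b c d -
            (K.mu - if col G y {a, b, d} = 0 then 1 else 0) * g4 a b c d := by
        intro d _
        rw [← Finset.sum_mul, ← sub_mul]
        have h3 := mul_le_mul_of_nonneg_right (cod_pt G y hG hdeg (d := d) h) (hg0 a b c d)
        have h4 := mul_le_mul_of_nonneg_left (hg1 a b c d) (by positivity : 0 ≤ 4 * K.mu)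
        linarith
      refine le_trans ?_ (Finset.sum_le_sum h2)
      rw [Finset.sum_neg_distrib, neg_le_neg_iff, ← Finset.mul_sum, ← Finset.mul_sum]
      refine mul_le_mul_of_nonneg_left (mul_le_mul_of_nonneg_left ?_ (by positivity)) (by positivity)
      exact Finset.sum_le_sum_of_subset_of_nonneg (Finset.subset_univ _) fun z _ _ => by positivity
    · linarith
  refine le_trans (le_of_eq ?_) (Finset.sum_le_sum fun a _ => Finset.sum_le_sum fun b _ =>
    Finset.sum_le_sum fun c _ => h1 a b c)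
  simp only [Finset.sum_neg_distrib, ← Finset.mul_sum]
  have h5 : ∑ a, ∑ b, ∑ c, ∑ z, ∑ m, mn G y a b c z m ^ 2 = 4 * (n * YY G y) := by
    simp only [Fin.sum_univ_four, Finset.sum_add_distrib]
    rw [sum_mn_sq, sum_mn_sq, sum_mn_sq, sum_mn_sq]
    ring
  rw [h5]
  ring

end Pool.Agent.KF74
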