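import Pool.Agent.KF74.FarkasX
import Pool.Agent.KF74.Lin

/-! # KF74/Main (MP_82a190_co, helper74): a valid certificate gives fractional decompositions -/

namespace Pool.Agent.KF74

open Finset

/-- the local configurations of a global one with nonnegative clique sums -/
theorem cliqueOK {n : ℕ} {G : Finset (Finset (Fin n))} (hG : ∀ e ∈ G, e.card = 3) {y : Finset (Fin n) → ℝ}
    (hy : ∀ A ∈ cls 4 3 G, 0 ≤ ∑ e ∈ G.filter (fun e => e ⊆ A), y e) {x : Fin 5 → Fin n}
    (hx : Function.Injective x) : CliqueOK (cx G y x) (rx G y x) := by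
  intro A hA hc
  have h1 : ∀ T ∈ A.powersetCard 3, T.image x ∈ G := by
    intro T hT
    rw [Finset.mem_powersetCard] at hT
    have h2 := hc T hT.1 hT.2
    unfold cx col at h2
    by_contra h3
    rw [if_neg h3] at h2
    exact h2 rfl
  have h2 : ∑ T ∈ A.powersetCard 3, sg (cx G y x T) * rx G y x T ^ 2 = ∑ T ∈ A.powersetCard 3, y (T.image x) := by
    refine Finset.sum_congr rfl fun T hT => ?_
    unfold cx rx
    rw [sg_col, if_pos (h1 T hT)]
  have h3 : G.filter (fun e => e ⊆ A.image x) = (A.powersetCard 3).image (fun T => T.image x) := by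
    ext e
    simp only [Finset.mem_filter, Finset.mem_image, Finset.mem_powersetCard]
    constructor
    · rintro ⟨he, he'⟩
      refine ⟨A.filter (fun i => x i ∈ e), ⟨Finset.filter_subset _ _, ?_⟩, ?_⟩
      · rw [← hG e he]
        have h4 : e = (A.filter (fun i => x i ∈ e)).image x := by
          ext z
          simp only [Finset.mem_image, Finset.mem_filter]
          constructor
          · intro hz
            obtain ⟨i, hi, rfl⟩ := Finset.mem_image.1 (he' hz)
            exact ⟨i, ⟨hi, hz⟩, rfl⟩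
          · rintro ⟨i, ⟨_, hi⟩, rfl⟩
            exact hi
        conv_rhs => rw [h4]
        rw [Finset.card_image_of_injective _ hx]
      · ext z
        simp only [Finset.mem_image, Finset.mem_filter]
        constructor
        · rintro ⟨i, ⟨_, hi⟩, rfl⟩
          exact hi
        · intro hz
          obtain ⟨i, hi, rfl⟩ := Finset.mem_image.1 (he' hz)
          exact ⟨i, ⟨hi, hz⟩, rfl⟩
    · rintro ⟨T, ⟨hT, hT'⟩, rfl⟩
      exact ⟨h1 T (Finset.mem_powersetCard.2 ⟨hT, hT'⟩), Finset.image_subset_image hT⟩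
  have h4 : A.image x ∈ cls 4 3 G := by
    rw [mem_cls]
    refine ⟨by rw [Finset.card_image_of_injective _ hx, hA], fun e he hce => ?_⟩
    have h5 : e = (A.filter (fun i => x i ∈ e)).image x := by
      ext z
      simp only [Finset.mem_image, Finset.mem_filter]
      constructor
      · intro hz
        obtain ⟨i, hi, rfl⟩ := Finset.mem_image.1 (he hz)
        exact ⟨i, ⟨hi, hz⟩, rfl⟩
      · rintro ⟨i, ⟨_, hi⟩, rfl⟩
        exact hi
    rw [h5]
    refine h1 _ (Finset.mem_powersetCard.2 ⟨Finset.filter_subset _ _, ?_⟩)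
    rw [← Finset.card_image_of_injective _ hx, ← h5, hce]
  have h5 := hy _ h4
  rw [h3, Finset.sum_image] at h5
  · rw [h2]
    exact h5
  · intro T _ T' _ hTT
    exact (Finset.image_injective hx) hTT

/-- **From the certificate to fractional decompositions.** -/
theorem frac_of_cert (K : Cert) (hK : K.Valid) : ∃ n₀ : ℕ, ∀ n : ℕ, n₀ ≤ n → ∀ G : Finset (Finset (Fin n)),
    (∀ e ∈ G, e.card = 3) →
    (∀ S : Finset (Fin n), S.card = 3 - 1 → (1 - K.mu) * (n : ℝ) ≤ ((G.filter (fun e => S ⊆ e)).card : ℝ)) →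
    ∃ w : Finset (Fin n) → ℝ,
      (∀ A, 0 ≤ w A) ∧
      (∀ A, w A ≠ 0 → A.card = 4 ∧ ∀ e : Finset (Fin n), e ⊆ A → e.card = 3 → e ∈ G) ∧
      ∀ e ∈ G, ∑ A ∈ (Finset.univ : Finset (Finset (Fin n))).filter (fun A => e ⊆ A), w A = 1 := by
  -- bounds of the coefficients
  obtain ⟨B3, hB3⟩ : ∃ B, ∀ κ i j, |K.B3 κ i j| ≤ B := by
    refine ⟨∑ κ, ∑ i, ∑ j, |K.B3 κ i j|, fun κ i j => ?_⟩
    refine le_trans ?_ (Finset.single_le_sum (f := fun κ => ∑ i, ∑ j, |K.B3 κ i j|)
      (fun κ _ => Finset.sum_nonneg fun _ _ => Finset.sum_nonneg fun _ _ => abs_nonneg _) (Finset.mem_univ κ))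
    refine le_trans ?_ (Finset.single_le_sum (f := fun i => ∑ j, |K.B3 κ i j|)
      (fun _ _ => Finset.sum_nonneg fun _ _ => abs_nonneg _) (Finset.mem_univ i))
    exact Finset.single_le_sum (f := fun j => |K.B3 κ i j|) (fun _ _ => abs_nonneg _) (Finset.mem_univ j)
  obtain ⟨B1, hB1⟩ : ∃ B, ∀ i j, |K.B1 i j| ≤ B := by
    refine ⟨∑ i, ∑ j, |K.B1 i j|, fun i j => ?_⟩
    refine le_trans ?_ (Finset.single_le_sum (f := fun i => ∑ j, |K.B1 i j|)
      (fun _ _ => Finset.sum_nonneg fun _ _ => abs_nonneg _) (Finset.mem_univ i))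
    exact Finset.single_le_sum (f := fun j => |K.B1 i j|) (fun _ _ => abs_nonneg _) (Finset.mem_univ j)
  obtain ⟨Bg, hBg⟩ : ∃ B, ∀ κ p m m', |K.g κ p m m'| ≤ B := by
    refine ⟨∑ κ, ∑ p, ∑ m, ∑ m', |K.g κ p m m'|, fun κ p i j => ?_⟩
    refine le_trans ?_ (Finset.single_le_sum (f := fun κ => ∑ p, ∑ m, ∑ m', |K.g κ p m m'|)
      (fun κ _ => Finset.sum_nonneg fun _ _ => Finset.sum_nonneg fun _ _ => Finset.sum_nonneg fun _ _ => abs_nonneg _)
      (Finset.mem_univ κ))
    refine le_trans ?_ (Finset.single_le_sum (f := fun p => ∑ i, ∑ j, |K.g κ p i j|)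
      (fun κ _ => Finset.sum_nonneg fun _ _ => Finset.sum_nonneg fun _ _ => abs_nonneg _) (Finset.mem_univ p))
    refine le_trans ?_ (Finset.single_le_sum (f := fun i => ∑ j, |K.g κ p i j|)
      (fun _ _ => Finset.sum_nonneg fun _ _ => abs_nonneg _) (Finset.mem_univ i))
    exact Finset.single_le_sum (f := fun j => |K.g κ p i j|) (fun _ _ => abs_nonneg _) (Finset.mem_univ j)
  have hB30 : 0 ≤ B3 := (abs_nonneg _).trans (hB3 0 ((0, 0, 0), 0) ((0, 0, 0), 0))
  have hB10 : 0 ≤ B1 := (abs_nonneg _).trans (hB1 0 0)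
  have hBg0 : 0 ≤ Bg := (abs_nonneg _).trans (hBg 0 (0, 0, 0) 0 0)
  have hmu := hK.mu_nonneg
  have heps := hK.eps_pos
  have hL0 : (1 : ℝ) ≤ K.L0.length := by
    have h1 : 0 < K.L0.length := List.length_pos_iff.2 hK.L0_pos
    exact_mod_cast h1
  -- the constant of the lower order terms
  set D : ℝ := K.L3.length * (16 * B3) + K.L1.length * (4 * B1) + K.Ld.length * (64 * K.mu * Bg) with hD
  have hD0 : 0 ≤ D := by positivity
  obtain ⟨N, hN⟩ := exists_nat_ge (8 * D / K.eps)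
  refine ⟨max N 8, fun n hn G hG hdeg => ?_⟩
  have hn8 : (8 : ℝ) ≤ n := by exact_mod_cast (le_max_right N 8).trans hn
  have hnN : 8 * D / K.eps ≤ n := hN.trans (by exact_mod_cast (le_max_left N 8).trans hn)
  refine farkasX G (half_pos heps) fun y hy => ?_
  -- the global inequality
  have hglob : (K.L3.length : ℝ) * ∑ x ∈ J5 (Fin n), K.sos3 (cx G y x) (rx G y x) +
      K.L1.length * ∑ x ∈ J5 (Fin n), K.sos1 (cx G y x) (rx G y x) +
      K.Ld.length * ∑ x ∈ J5 (Fin n), K.cod (cx G y x) (rx G y x) ≤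
      K.L0.length * ∑ x ∈ J5 (Fin n), K.lin (cx G y x) (rx G y x) := by
    rw [← sum_list, ← sum_list, ← sum_list, ← sum_list, ← Finset.sum_add_distrib, ← Finset.sum_add_distrib]
    refine Finset.sum_le_sum fun x hx => ?_
    have hinj : Function.Injective x := (Finset.mem_filter.1 hx).2
    exact hK.ineq _ _ (fun T => rad_nonneg G y _) (fun T hT => rad_eq_zero G y hT) (fun T hT => rad_pos G y hT)
      (cliqueOK hG hy hinj)
  have e1 := mul_le_mul_of_nonneg_left (sos3_lower G y K hK hB3) (Nat.cast_nonneg (α := ℝ) K.L3.length)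
  have e2 := mul_le_mul_of_nonneg_left (sos1_lower G y hG K hK hB1) (Nat.cast_nonneg (α := ℝ) K.L1.length)
  have e3 := mul_le_mul_of_nonneg_left (cod_lower G y hG K hK hdeg hBg) (Nat.cast_nonneg (α := ℝ) K.Ld.length)
  rw [lin_eq G y hG K] at hglob
  have hYY := YY_nonneg G y
  have hYe := YY_eq G y hG
  have hmain : -(D * n * YY G y) ≤
      K.L0.length * (((n : ℝ) - 3) * (n - 4) * (6 * ∑ e ∈ G, y e - K.eps * YY G y)) := by
    refine le_trans (le_of_eq ?_) (le_trans (add_le_add (add_le_add e1 e2) e3) hglob)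
    rw [hD]
    ring
  -- conclusion
  set P : ℝ := K.L0.length * (((n : ℝ) - 3) * (n - 4)) with hP
  have hP1 : ((n : ℝ) / 2) * (n / 2) ≤ P := by
    have h1 : (n : ℝ) / 2 ≤ n - 3 := by linarith
    have h2 : (n : ℝ) / 2 ≤ n - 4 := by linarith
    have h3 : ((n : ℝ) / 2) * (n / 2) ≤ (n - 3) * (n - 4) := mul_le_mul h1 h2 (by linarith) (by linarith)
    have h4 : (0 : ℝ) ≤ (n - 3) * (n - 4) := mul_nonneg (by linarith) (by linarith)
    rw [hP]
    nlinarith
  have hDn : D * n ≤ P * (K.eps / 2) := by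
    have h1 : 8 * D ≤ n * K.eps := by rwa [div_le_iff₀ heps] at hnN
    have h2 : ((n : ℝ) / 2) * (n / 2) * (K.eps / 2) ≤ P * (K.eps / 2) :=
      mul_le_mul_of_nonneg_right hP1 (by linarith)
    have h3 : 8 * D * n ≤ n * K.eps * n := mul_le_mul_of_nonneg_right h1 (by linarith)
    nlinarith
  have hPpos : 0 < P := lt_of_lt_of_le (by positivity) hP1
  have h1 : -(P * (K.eps / 2) * YY G y) ≤ P * (6 * ∑ e ∈ G, y e - K.eps * YY G y) := by
    have h2 := mul_le_mul_of_nonneg_right hDn hYY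
    have h3 : P * (6 * ∑ e ∈ G, y e - K.eps * YY G y) =
        K.L0.length * (((n : ℝ) - 3) * (n - 4) * (6 * ∑ e ∈ G, y e - K.eps * YY G y)) := by
      rw [hP]
      ring
    rw [h3]
    linarith
  have h2 : 0 ≤ P * (6 * ∑ e ∈ G, y e - K.eps / 2 * YY G y) := by
    have h3 : P * (6 * ∑ e ∈ G, y e - K.eps / 2 * YY G y) =
        P * (6 * ∑ e ∈ G, y e - K.eps * YY G y) + P * (K.eps / 2) * YY G y := by ring
    rw [h3]
    linarith
  have h3 := (mul_nonneg_iff_of_pos_left hPpos).1 h2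
  rw [hYe] at h3
  linarith

end Pool.Agent.KF74
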