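import Mathlib

/-! # KF74/Farkas (MP_82a190_co, helper74): robust Farkas criterion for fractional decompositions -/

namespace Pool.Agent.KF74

open Finset

/-- the cliques `K_r^k` of the `k`-graph `G` -/
def IsCl {n : ℕ} (r k : ℕ) (G : Finset (Finset (Fin n))) (A : Finset (Fin n)) : Prop :=
  A.card = r ∧ ∀ e : Finset (Fin n), e ⊆ A → e.card = k → e ∈ G

open Classical in
/-- the set of cliques -/
noncomputable def cls {n : ℕ} (r k : ℕ) (G : Finset (Finset (Fin n))) : Finset (Finset (Fin n)) :=
  univ.filter (IsCl r k G)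

theorem mem_cls {n r k : ℕ} {G : Finset (Finset (Fin n))} {A : Finset (Fin n)} :
    A ∈ cls r k G ↔ IsCl r k G A := by
  classical
  simp [cls]

/-- **Robust Farkas criterion.** -/
theorem farkas {n r k : ℕ} (G : Finset (Finset (Fin n))) (C : ℝ)
    (h : ∀ y : Finset (Fin n) → ℝ,
      0 ≤ ∑ e ∈ G, y e + C * ∑ A ∈ cls r k G, max 0 (-(∑ e ∈ G.filter (fun e => e ⊆ A), y e))) :
    ∃ w : Finset (Fin n) → ℝ,
      (∀ A, 0 ≤ w A) ∧
      (∀ A, w A ≠ 0 → A.card = r ∧ ∀ e : Finset (Fin n), e ⊆ A → e.card = k → e ∈ G) ∧
      ∀ e ∈ G, ∑ A ∈ (Finset.univ : Finset (Finset (Fin n))).filter (fun A => e ⊆ A), w A = 1 := by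
  classical
  set L : ℝ := max C 0 with hL
  have hL0 : 0 ≤ L := le_max_right _ _
  have hLC : C ≤ L := le_max_left _ _
  -- the linear map
  let Φ : (Finset (Fin n) → ℝ) →ₗ[ℝ] (Finset (Fin n) → ℝ) :=
    { toFun := fun w e => if e ∈ G then ∑ A ∈ (cls r k G).filter (fun A => e ⊆ A), w A else 0
      map_add' := by
        intro w w'
        funext e
        by_cases he : e ∈ G
        · simp [he, Finset.sum_add_distrib]
        · simp [he]
      map_smul' := by
        intro a w
        funext e
        by_cases he : e ∈ G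
        · simp [he, Finset.mul_sum]
        · simp [he] }
  have hΦc : Continuous Φ := LinearMap.continuous_of_finiteDimensional Φ
  let B : Set (Finset (Fin n) → ℝ) := Set.Icc (fun _ => 0) (fun _ => L)
  have hBc : IsCompact B := isCompact_Icc
  have hBv : Convex ℝ B := convex_Icc _ _
  have hKc : IsCompact (Φ '' B) := hBc.image hΦc
  have hKv : Convex ℝ (Φ '' B) := hBv.linear_image Φ
  let one : Finset (Fin n) → ℝ := fun e => if e ∈ G then 1 else 0
  have hmem : one ∈ Φ '' B := by
    by_contra hno
    obtain ⟨f, u, hfu, hfb⟩ := geometric_hahn_banach_point_closed hKv hKc.isClosed hno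
    let y : Finset (Fin n) → ℝ := fun e => f (Pi.single e 1)
    have hf : ∀ v : Finset (Fin n) → ℝ, f v = ∑ e, v e * y e := by
      intro v
      have hv : v = ∑ e, v e • (Pi.single e (1 : ℝ) : Finset (Fin n) → ℝ) := by
        funext e'
        simp [Finset.sum_apply, Pi.single_apply]
      conv_lhs => rw [hv]
      rw [map_sum]
      simp [y]
    have h1 : f one = ∑ e ∈ G, y e := by
      rw [hf]
      simp [one, Finset.sum_ite_mem]
    -- the test weight
    let w : Finset (Fin n) → ℝ := fun A => if (∑ e ∈ G.filter (fun e => e ⊆ A), y e) < 0 then L else 0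
    have hwB : w ∈ B := by
      constructor
      · intro A
        simp only [w]
        split_ifs
        · exact hL0
        · exact le_rfl
      · intro A
        simp only [w]
        split_ifs
        · exact le_rfl
        · exact hL0
    have h2 : f (Φ w) = -(L * ∑ A ∈ cls r k G, max 0 (-(∑ e ∈ G.filter (fun e => e ⊆ A), y e))) := by
      rw [hf]
      have h3 : ∀ e, Φ w e * y e =
          if e ∈ G then ∑ A ∈ cls r k G, (if e ⊆ A then w A * y e else 0) else 0 := by
        intro e
        by_cases he : e ∈ G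
        · simp only [Φ, LinearMap.coe_mk, AddHom.coe_mk, he, if_true]
          rw [Finset.sum_mul, Finset.sum_filter]
        · simp [Φ, he]
      rw [Finset.sum_congr rfl (fun e _ => h3 e), Finset.sum_ite_mem, Finset.univ_inter,
        Finset.sum_comm, Finset.mul_sum, ← Finset.sum_neg_distrib]
      refine Finset.sum_congr rfl fun A _ => ?_
      rw [← Finset.sum_filter, ← Finset.mul_sum]
      by_cases hA : (∑ e ∈ G.filter (fun e => e ⊆ A), y e) < 0
      · simp only [w, hA, if_true]
        rw [max_eq_right (by linarith)]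
        ring
      · simp only [w, hA, if_false]
        rw [max_eq_left (by linarith [not_lt.1 hA])]
        ring
    have h4 := hfb (Φ w) ⟨w, hwB, rfl⟩
    have h5 := h y
    have h6 : 0 ≤ ∑ A ∈ cls r k G, max 0 (-(∑ e ∈ G.filter (fun e => e ⊆ A), y e)) :=
      Finset.sum_nonneg fun A _ => le_max_left _ _
    have h7 := mul_le_mul_of_nonneg_right hLC h6
    rw [h1] at hfu
    rw [h2] at h4
    linarith
  obtain ⟨w, hwB, hw⟩ := hmem
  refine ⟨fun A => if A ∈ cls r k G then w A else 0, ?_, ?_, ?_⟩
  · intro A
    dsimp only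
    split_ifs
    · exact hwB.1 A
    · exact le_rfl
  · intro A hA
    by_cases h1 : A ∈ cls r k G
    · exact mem_cls.1 h1
    · simp [h1] at hA
  · intro e he
    have h1 := congrFun hw e
    simp only [Φ, LinearMap.coe_mk, AddHom.coe_mk, he, if_true, one] at h1
    rw [← h1, Finset.sum_ite, Finset.sum_const_zero, add_zero]
    refine Finset.sum_congr ?_ fun _ _ => rfl
    ext A
    simp only [Finset.mem_filter, Finset.mem_univ, true_and]
    tauto

end Pool.Agent.KF74
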