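import Pool.Agent.KF74.Farkas

/-! # KF74/Defs (MP_82a190_co, helper74): the homogeneous counting layer, definitions

Colours of triples: `0` = not an edge, `1` = edge with `y < 0` (red), `2` = edge with `0 ≤ y` (blue). The magnitude of
an edge is `√|y|`. A local configuration is a pair `c : Finset (Fin 5) → Fin 3`, `r : Finset (Fin 5) → ℝ` (only the
ten triples of `Fin 5` matter).
-/

namespace Pool.Agent.KF74

open Finset

/-- colour of a triple -/
noncomputable def col {n : ℕ} (G : Finset (Finset (Fin n))) (y : Finset (Fin n) → ℝ) (T : Finset (Fin n)) : Fin 3 :=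
  if T ∈ G then (if y T < 0 then 1 else 2) else 0

/-- magnitude of a triple -/
noncomputable def rad {n : ℕ} (G : Finset (Finset (Fin n))) (y : Finset (Fin n) → ℝ) (T : Finset (Fin n)) : ℝ :=
  if T ∈ G then √|y T| else 0

/-- sign of a colour -/
def sg : Fin 3 → ℝ := ![0, -1, 1]

/-- a local configuration of colours -/
abbrev LC := Finset (Fin 5) → Fin 3

/-- a local configuration of magnitudes -/
abbrev LR := Finset (Fin 5) → ℝ

/-- colours of the three triples spanned by `z` and the root `{0, 1, 2}` -/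
def pat (c : LC) (z : Fin 5) : Fin 3 × Fin 3 × Fin 3 := (c {0, 1, z}, c {0, 2, z}, c {1, 2, z})

/-- magnitudes of the root and of the three triples spanned by `z` and the root -/
def mag (r : LR) (z : Fin 5) : Fin 4 → ℝ := ![r {0, 1, 2}, r {0, 1, z}, r {0, 2, z}, r {1, 2, z}]

/-- the sum of `y` is nonnegative on every clique of the local configuration -/
def CliqueOK (c : LC) (r : LR) : Prop :=
  ∀ A : Finset (Fin 5), A.card = 4 → (∀ T : Finset (Fin 5), T ⊆ A → T.card = 3 → c T ≠ 0) →
    0 ≤ ∑ T ∈ A.powersetCard 3, sg (c T) * r T ^ 2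

/-- index of the features at a rooted triple: colours of the extension, and which magnitude -/
abbrev Ix := (Fin 3 × Fin 3 × Fin 3) × Fin 4

/-- data of a certificate -/
structure Cert where
  /-- bound for the codegree of the complement, divided by `n` -/
  mu : ℝ
  /-- the gain -/
  eps : ℝ
  /-- quadratic form at a rooted triple of given colour -/
  B3 : Fin 3 → Ix → Ix → ℝ
  /-- quadratic form at a root vertex -/
  B1 : Fin 3 → Fin 3 → ℝ
  /-- nonnegative quadratic form on four points multiplying the codegree condition of the pair `{0, 1}` -/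
  g : Fin 3 → (Fin 3 × Fin 3 × Fin 3) → Fin 4 → Fin 4 → ℝ
  /-- permutations used for the linear term -/
  L0 : List (Equiv.Perm (Fin 5))
  /-- permutations used for the squares at rooted triples -/
  L3 : List (Equiv.Perm (Fin 5))
  /-- permutations used for the squares at root vertices -/
  L1 : List (Equiv.Perm (Fin 5))
  /-- permutations used for the codegree terms -/
  Ld : List (Equiv.Perm (Fin 5))

namespace Cert

variable (K : Cert)

/-- the linear term -/
def lin (c : LC) (r : LR) : ℝ := (sg (c {0, 1, 2}) - K.eps) * r {0, 1, 2} ^ 2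

/-- square at the rooted triple `{0, 1, 2}` -/
def sos3 (c : LC) (r : LR) : ℝ :=
  ∑ m : Fin 4, ∑ m' : Fin 4, K.B3 (c {0, 1, 2}) (pat c 3, m) (pat c 4, m') * (mag r 3 m * mag r 4 m')

/-- square at the root vertex `0` -/
def sos1 (c : LC) (r : LR) : ℝ := K.B1 (c {0, 1, 2}) (c {0, 3, 4}) * (r {0, 1, 2} * r {0, 3, 4})

/-- codegree term of the pair `{0, 1}`, tested at the point `4` -/
def cod (c : LC) (r : LR) : ℝ :=
  (K.mu - if c {0, 1, 4} = 0 then 1 else 0) *
    ∑ m : Fin 4, ∑ m' : Fin 4, K.g (c {0, 1, 2}) (pat c 3) m m' * (mag r 3 m * mag r 3 m')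

/-- a local term at a permuted configuration -/
def at' (f : LC → LR → ℝ) (c : LC) (r : LR) (σ : Equiv.Perm (Fin 5)) : ℝ :=
  f (fun T => c (T.image σ)) (fun T => r (T.image σ))

/-- validity of a certificate -/
structure Valid : Prop where
  mu_nonneg : 0 ≤ K.mu
  eps_pos : 0 < K.eps
  B3_psd : ∀ κ (v : Ix → ℝ), 0 ≤ ∑ i, ∑ j, K.B3 κ i j * (v i * v j)
  B1_psd : ∀ v : Fin 3 → ℝ, 0 ≤ ∑ i, ∑ j, K.B1 i j * (v i * v j)
  g_nonneg : ∀ κ p (v : Fin 4 → ℝ), (∀ m, 0 ≤ v m) → 0 ≤ ∑ m, ∑ m', K.g κ p m m' * (v m * v m')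
  L0_pos : K.L0 ≠ []
  /-- the pointwise inequality -/
  ineq : ∀ (c : LC) (r : LR), (∀ T, 0 ≤ r T) → (∀ T, c T = 0 → r T = 0) → (∀ T, c T = 1 → 0 < r T) → CliqueOK c r →
    (K.L3.map (at' K.sos3 c r)).sum + (K.L1.map (at' K.sos1 c r)).sum + (K.Ld.map (at' K.cod c r)).sum ≤
      (K.L0.map (at' K.lin c r)).sum

end Cert

end Pool.Agent.KF74
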