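import Pool.Agent.KF74.Farkas

/-! # KF74/FarkasX (MP_82a190_co, helper74): the criterion with the sign conditions on the cliques -/

namespace Pool.Agent.KF74

open Finset Filter Topology

/-- the negative parts of the clique sums -/
noncomputable def negs {n : ℕ} (r k : ℕ) (G : Finset (Finset (Fin n))) (y : Finset (Fin n) → ℝ) : ℝ :=
  ∑ A ∈ cls r k G, max 0 (-(∑ e ∈ G.filter (fun e => e ⊆ A), y e))

theorem negs_cont {n r k : ℕ} (G : Finset (Finset (Fin n))) : Continuous (negs r k G) := by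
  unfold negs
  fun_prop

/-- **Exact criterion.** If `∑ y ≥ c ∑ |y|` whenever `y` is nonnegative on all cliques, then there is a fractional
decomposition. -/
theorem farkasX {n r k : ℕ} (G : Finset (Finset (Fin n))) {c : ℝ} (hc : 0 < c)
    (h : ∀ y : Finset (Fin n) → ℝ, (∀ A ∈ cls r k G, 0 ≤ ∑ e ∈ G.filter (fun e => e ⊆ A), y e) →
      c * ∑ e ∈ G, |y e| ≤ ∑ e ∈ G, y e) :
    ∃ w : Finset (Fin n) → ℝ,
      (∀ A, 0 ≤ w A) ∧
      (∀ A, w A ≠ 0 → A.card = r ∧ ∀ e : Finset (Fin n), e ⊆ A → e.card = k → e ∈ G) ∧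
      ∀ e ∈ G, ∑ A ∈ (Finset.univ : Finset (Finset (Fin n))).filter (fun A => e ⊆ A), w A = 1 := by
  classical
  -- compactness
  have key : ∃ L : ℕ, ∀ y : Finset (Fin n) → ℝ, (∀ e, e ∉ G → y e = 0) → ∑ e ∈ G, |y e| = 1 →
      0 ≤ ∑ e ∈ G, y e + L * negs r k G y := by
    by_contra hno
    push Not at hno
    choose y hy0 hy1 hy2 using hno
    let S : Set (Finset (Fin n) → ℝ) := Set.Icc (fun _ => -1) (fun _ => 1)
    have hS : IsCompact S := isCompact_Icc
    have hyS : ∀ L, y L ∈ S := by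
      intro L
      have h1 : ∀ e, |y L e| ≤ 1 := by
        intro e
        by_cases he : e ∈ G
        · rw [← hy1 L]
          exact Finset.single_le_sum (f := fun e => |y L e|) (fun e _ => abs_nonneg _) he
        · rw [hy0 L e he]
          norm_num
      exact ⟨fun e => (abs_le.1 (h1 e)).1, fun e => (abs_le.1 (h1 e)).2⟩
    obtain ⟨z, _, φ, hφ, hz⟩ := hS.tendsto_subseq hyS
    have c1 : Tendsto (fun j => ∑ e ∈ G, y (φ j) e) atTop (𝓝 (∑ e ∈ G, z e)) :=
      ((by fun_prop : Continuous fun y : Finset (Fin n) → ℝ => ∑ e ∈ G, y e).tendsto z).comp hz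
    have c2 : Tendsto (fun j => ∑ e ∈ G, |y (φ j) e|) atTop (𝓝 (∑ e ∈ G, |z e|)) :=
      ((by fun_prop : Continuous fun y : Finset (Fin n) → ℝ => ∑ e ∈ G, |y e|).tendsto z).comp hz
    have c3 : Tendsto (fun j => negs r k G (y (φ j))) atTop (𝓝 (negs r k G z)) :=
      ((negs_cont G).tendsto z).comp hz
    have d2 : ∑ e ∈ G, |z e| = 1 := tendsto_nhds_unique c2 (by simp [hy1])
    have hneg0 : ∀ y : Finset (Fin n) → ℝ, 0 ≤ negs r k G y := fun y =>
      Finset.sum_nonneg fun A _ => le_max_left _ _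
    have d1 : ∑ e ∈ G, z e ≤ 0 := by
      refine le_of_tendsto' c1 fun j => ?_
      have h1 := hy2 (φ j)
      have h2 : 0 ≤ ((φ j : ℕ) : ℝ) * negs r k G (y (φ j)) := mul_nonneg (Nat.cast_nonneg _) (hneg0 _)
      linarith
    have d3 : negs r k G z = 0 := by
      refine le_antisymm ?_ (hneg0 z)
      have h1 : ∀ j, 1 ≤ j → negs r k G (y (φ j)) ≤ 1 / (j : ℝ) := by
        intro j hj
        have h2 := hy2 (φ j)
        have h3 : -(∑ e ∈ G, y (φ j) e) ≤ 1 := by
          rw [← hy1 (φ j), ← Finset.sum_neg_distrib]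
          exact Finset.sum_le_sum fun e _ => neg_le_abs _
        have h4 : (j : ℝ) ≤ ((φ j : ℕ) : ℝ) := by exact_mod_cast hφ.id_le j
        have h5 : (0 : ℝ) < j := by exact_mod_cast hj
        have h6 : (j : ℝ) * negs r k G (y (φ j)) ≤ ((φ j : ℕ) : ℝ) * negs r k G (y (φ j)) :=
          mul_le_mul_of_nonneg_right h4 (hneg0 _)
        rw [le_div_iff₀ h5]
        nlinarith
      refine le_of_tendsto_of_tendsto c3 tendsto_one_div_atTop_nhds_zero_nat ?_
      filter_upwards [eventually_ge_atTop 1] with j hj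
      exact h1 j hj
    have d4 : ∀ A ∈ cls r k G, 0 ≤ ∑ e ∈ G.filter (fun e => e ⊆ A), z e := by
      intro A hA
      have h1 := (Finset.sum_eq_zero_iff_of_nonneg (fun A _ => le_max_left _ _)).1 d3 A hA
      have h2 : -(∑ e ∈ G.filter (fun e => e ⊆ A), z e) ≤ 0 := by
        rw [← h1]
        exact le_max_right _ _
      linarith
    have h1 := h z d4
    rw [d2] at h1
    linarith
  obtain ⟨L, hL⟩ := key
  refine farkas G (L : ℝ) fun y => ?_
  -- restrict and normalise
  set s := ∑ e ∈ G, |y e| with hs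
  have hs0 : 0 ≤ s := Finset.sum_nonneg fun e _ => abs_nonneg _
  rcases hs0.eq_or_lt with h0 | h0
  · have h1 : ∀ e ∈ G, y e = 0 := by
      intro e he
      have h2 := (Finset.sum_eq_zero_iff_of_nonneg (fun e _ => abs_nonneg _)).1 h0.symm e he
      exact abs_eq_zero.1 h2
    rw [Finset.sum_eq_zero h1, zero_add]
    exact mul_nonneg (Nat.cast_nonneg _) (Finset.sum_nonneg fun A _ => le_max_left _ _)
  · let y' : Finset (Fin n) → ℝ := fun e => if e ∈ G then s⁻¹ * y e else 0
    have h1 := hL y' (fun e he => by simp [y', he]) (by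
      rw [Finset.sum_congr rfl (g := fun e => s⁻¹ * |y e|), ← Finset.mul_sum, ← hs, inv_mul_cancel₀ h0.ne']
      intro e he
      simp only [y', he, if_true, abs_mul, abs_of_pos (inv_pos.2 h0)])
    have h2 : ∑ e ∈ G, y' e = s⁻¹ * ∑ e ∈ G, y e := by
      rw [Finset.mul_sum]
      exact Finset.sum_congr rfl fun e he => by simp [y', he]
    have h3 : negs r k G y' = s⁻¹ * ∑ A ∈ cls r k G, max 0 (-(∑ e ∈ G.filter (fun e => e ⊆ A), y e)) := by
      unfold negs
      rw [Finset.mul_sum]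
      refine Finset.sum_congr rfl fun A _ => ?_
      rw [Finset.sum_congr rfl (g := fun e => s⁻¹ * y e), ← Finset.mul_sum, ← mul_neg,
        mul_max_of_nonneg _ _ (inv_pos.2 h0).le, mul_zero]
      intro e he
      simp [y', (Finset.mem_filter.1 he).1]
    rw [h2, h3] at h1
    have h4 : s⁻¹ * ∑ e ∈ G, y e + L * (s⁻¹ * ∑ A ∈ cls r k G, max 0 (-(∑ e ∈ G.filter (fun e => e ⊆ A), y e))) =
        s⁻¹ * (∑ e ∈ G, y e + L * ∑ A ∈ cls r k G, max 0 (-(∑ e ∈ G.filter (fun e => e ⊆ A), y e))) := by ring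
    rw [h4] at h1
    exact (mul_nonneg_iff_of_pos_left (inv_pos.2 h0)).1 h1

end Pool.Agent.KF74
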