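import Pool.Agent.KF74.Sq3

/-! # KF74/Sq1 (MP_82a190_co, helper74): the squares at root vertices, the linear term, the codegree term -/

namespace Pool.Agent.KF74

open Finset

variable {n : ℕ} (G : Finset (Finset (Fin n))) (y : Finset (Fin n) → ℝ)

theorem inj3_of_rad (hG : ∀ e ∈ G, e.card = 3) {a b c : Fin n} (h : rad G y {a, b, c} ≠ 0) : inj3 a b c := by
  unfold rad at h
  split_ifs at h with h1
  · have h2 := hG _ h1
    refine ⟨?_, ?_, ?_⟩
    · rintro rfl
      have : ({a, a, c} : Finset (Fin n)).card ≤ 2 := by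
        rw [Finset.insert_eq_of_mem (by simp)]
        exact Finset.card_le_two
      omega
    · rintro rfl
      have : ({a, b, a} : Finset (Fin n)).card ≤ 2 := by
        rw [Finset.insert_eq_of_mem (by simp)]
        exact Finset.card_le_two
      omega
    · rintro rfl
      have : ({a, b, b} : Finset (Fin n)).card ≤ 2 := by
        rw [Finset.pair_eq_singleton]
        exact Finset.card_le_two
      omega
  · exact absurd rfl h

/-- **The squares at root vertices are almost nonnegative.** -/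
theorem sos1_lower (hG : ∀ e ∈ G, e.card = 3) (K : Cert) (hK : K.Valid) {B : ℝ} (hB : ∀ i j, |K.B1 i j| ≤ B) :
    -(4 * B * n * YY G y) ≤ ∑ x ∈ J5 (Fin n), K.sos1 (cx G y x) (rx G y x) := by
  have hB0 : 0 ≤ B := (abs_nonneg _).trans (hB 0 0)
  let F : Fin n → Fin n → Fin n → Fin n → Fin n → ℝ := fun a b c d e =>
    K.B1 (col G y {a, b, c}) (col G y {a, d, e}) * (rad G y {a, b, c} * rad G y {a, d, e})
  let I : Fin n → Fin n → Fin n → Fin n → ℝ := fun b c d e =>
    (if b = d then 1 else 0) + (if b = e then 1 else 0) + (if c = d then 1 else 0) + (if c = e then 1 else 0)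
  have hI0 : ∀ b c d e, 0 ≤ I b c d e := by
    intro b c d e
    simp only [I]
    split_ifs <;> norm_num
  have hI1 : ∀ b c d e, (b = d ∨ b = e ∨ c = d ∨ c = e) → 1 ≤ I b c d e := by
    intro b c d e h
    simp only [I]
    split_ifs with h1 h2 h3 h4 <;> first | (exfalso; tauto) | norm_num
  have hF : ∀ a b c d e, |F a b c d e| ≤ B * ((rad G y {a, b, c} ^ 2 + rad G y {a, d, e} ^ 2) / 2) := by
    intro a b c d e
    simp only [F, abs_mul]
    refine mul_le_mul (hB _ _) ?_ (by positivity) hB0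
    rw [← abs_mul, abs_le]
    constructor <;>
      nlinarith [sq_nonneg (rad G y {a, b, c} + rad G y {a, d, e}), sq_nonneg (rad G y {a, b, c} - rad G y {a, d, e})]
  -- total sum
  have hT : 0 ≤ ∑ a, ∑ b, ∑ c, ∑ d, ∑ e, F a b c d e := by
    refine Finset.sum_nonneg fun a _ => ?_
    have h1 := hK.B1_psd (fun k => ∑ b, ∑ c, if col G y {a, b, c} = k then rad G y {a, b, c} else 0)
    refine h1.trans (le_of_eq ?_)
    have h2 : ∀ i j : Fin 3, K.B1 i j * ((∑ b, ∑ c, if col G y {a, b, c} = i then rad G y {a, b, c} else 0) *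
        (∑ b, ∑ c, if col G y {a, b, c} = j then rad G y {a, b, c} else 0)) =
        ∑ p : Fin n × Fin n, ∑ q : Fin n × Fin n, (if col G y {a, p.1, p.2} = i then
          (if col G y {a, q.1, q.2} = j then K.B1 i j * (rad G y {a, p.1, p.2} * rad G y {a, q.1, q.2}) else 0)
          else 0) := by
      intro i j
      rw [← Fintype.sum_prod_type', ← Fintype.sum_prod_type', Finset.sum_mul_sum, Finset.mul_sum]
      refine Finset.sum_congr rfl fun p _ => ?_
      rw [Finset.mul_sum]
      refine Finset.sum_congr rfl fun q _ => ?_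
      split_ifs <;> simp
    simp only [h2]
    have h3 : ∀ H : Fin 3 → Fin 3 → Fin n × Fin n → Fin n × Fin n → ℝ,
        ∑ i, ∑ j, ∑ p, ∑ q, H i j p q = ∑ p, ∑ q, ∑ i, ∑ j, H i j p q := by
      intro H
      calc ∑ i, ∑ j, ∑ p, ∑ q, H i j p q = ∑ i, ∑ p, ∑ j, ∑ q, H i j p q :=
            Finset.sum_congr rfl fun i _ => Finset.sum_comm
        _ = ∑ p, ∑ i, ∑ j, ∑ q, H i j p q := Finset.sum_comm
        _ = ∑ p, ∑ i, ∑ q, ∑ j, H i j p q :=
            Finset.sum_congr rfl fun p _ => Finset.sum_congr rfl fun i _ => Finset.sum_comm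
        _ = ∑ p, ∑ q, ∑ i, ∑ j, H i j p q := Finset.sum_congr rfl fun p _ => Finset.sum_comm
    rw [h3]
    have h4 : ∀ p q : Fin n × Fin n, (∑ i : Fin 3, ∑ j : Fin 3, if col G y {a, p.1, p.2} = i then
          (if col G y {a, q.1, q.2} = j then K.B1 i j * (rad G y {a, p.1, p.2} * rad G y {a, q.1, q.2}) else 0)
          else 0) = F a p.1 p.2 q.1 q.2 := by
      intro p q
      rw [Finset.sum_eq_single (col G y {a, p.1, p.2}), Finset.sum_eq_single (col G y {a, q.1, q.2})]
      · simp [F]
      · intro j _ hj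
        simp [Ne.symm hj]
      · intro h; exact absurd (Finset.mem_univ _) h
      · intro i _ hi
        refine Finset.sum_eq_zero fun j _ => ?_
        simp [Ne.symm hi]
      · intro h; exact absurd (Finset.mem_univ _) h
    rw [Finset.sum_congr rfl fun p _ => Finset.sum_congr rfl fun q _ => h4 p q]
    rw [Fintype.sum_prod_type]
    refine Finset.sum_congr rfl fun b _ => Finset.sum_congr rfl fun c _ => ?_
    rw [Fintype.sum_prod_type]
  -- comparison
  have hcmp : ∀ a b c d e, F a b c d e - I b c d e * (B * ((rad G y {a, b, c} ^ 2 + rad G y {a, d, e} ^ 2) / 2)) ≤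
      if Function.Injective ![a, b, c, d, e] then F a b c d e else 0 := by
    intro a b c d e
    have h1 := (abs_le.1 (hF a b c d e)).2
    have h2 : 0 ≤ B * ((rad G y {a, b, c} ^ 2 + rad G y {a, d, e} ^ 2) / 2) := by positivity
    have h3 := mul_nonneg (hI0 b c d e) h2
    split_ifs with h
    · linarith
    · by_cases h4 : rad G y {a, b, c} = 0
      · have : F a b c d e = 0 := by simp [F, h4]
        linarith
      by_cases h5 : rad G y {a, d, e} = 0
      · have : F a b c d e = 0 := by simp [F, h5]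
        linarith
      have h6 := inj3_of_rad G y hG h4
      have h7 := inj3_of_rad G y hG h5
      have h8 : b = d ∨ b = e ∨ c = d ∨ c = e := by
        by_contra h9
        push Not at h9
        apply h
        rw [inj5_iff]
        obtain ⟨h10, h11, h12⟩ := h6
        obtain ⟨h13, h14, h15⟩ := h7
        obtain ⟨h16, h17, h18, h19⟩ := h9
        refine ⟨⟨h10, h11, h12⟩, ?_, ?_, h15⟩
        · rw [mem_R3]; exact ⟨h13.symm, h16.symm, h18.symm⟩
        · rw [mem_R3]; exact ⟨h14.symm, h17.symm, h19.symm⟩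
      have h9 := mul_le_mul_of_nonneg_right (hI1 b c d e h8) h2
      linarith
  have hJ : ∑ x ∈ J5 (Fin n), K.sos1 (cx G y x) (rx G y x) =
      ∑ a, ∑ b, ∑ c, ∑ d, ∑ e, if Function.Injective ![a, b, c, d, e] then F a b c d e else 0 := by
    unfold J5
    rw [Finset.sum_filter, sum_fin5]
    refine Finset.sum_congr rfl fun a _ => Finset.sum_congr rfl fun b _ => Finset.sum_congr rfl fun c _ =>
      Finset.sum_congr rfl fun d _ => Finset.sum_congr rfl fun e _ => ?_
    unfold Cert.sos1
    rw [cx_012, cx_034, rx_012, rx_034]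
  rw [hJ]
  have hsum := Finset.sum_le_sum fun a (_ : a ∈ (univ : Finset (Fin n))) =>
    Finset.sum_le_sum fun b (_ : b ∈ (univ : Finset (Fin n))) =>
    Finset.sum_le_sum fun c (_ : c ∈ (univ : Finset (Fin n))) =>
    Finset.sum_le_sum fun d (_ : d ∈ (univ : Finset (Fin n))) =>
    Finset.sum_le_sum fun e (_ : e ∈ (univ : Finset (Fin n))) => hcmp a b c d e
  refine le_trans ?_ hsum
  simp only [Finset.sum_sub_distrib]
  have hE : ∑ a, ∑ b, ∑ c, ∑ d, ∑ e, I b c d e * (B * ((rad G y {a, b, c} ^ 2 + rad G y {a, d, e} ^ 2) / 2)) =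
      4 * B * n * YY G y := by
    have hI2 : ∀ b c, ∑ d, ∑ e, I b c d e = 4 * n := by
      intro b c
      simp only [I, Finset.sum_add_distrib]
      simp
      ring
    have hI3 : ∀ d e, ∑ b, ∑ c, I b c d e = 4 * n := by
      intro b c
      simp only [I, Finset.sum_add_distrib]
      simp
      ring
    have h1 : ∀ a, ∑ b, ∑ c, ∑ d, ∑ e, I b c d e * (B * ((rad G y {a, b, c} ^ 2 + rad G y {a, d, e} ^ 2) / 2)) =
        4 * B * n * ∑ b, ∑ c, rad G y {a, b, c} ^ 2 := by
      intro a
      have h2 : ∑ b, ∑ c, ∑ d, ∑ e, I b c d e * (B * ((rad G y {a, b, c} ^ 2 + rad G y {a, d, e} ^ 2) / 2)) =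
          ∑ b, ∑ c, (∑ d, ∑ e, I b c d e) * (B * (rad G y {a, b, c} ^ 2 / 2)) +
          ∑ d, ∑ e, (∑ b, ∑ c, I b c d e) * (B * (rad G y {a, d, e} ^ 2 / 2)) := by
        have h3 : ∀ H : Fin n → Fin n → Fin n → Fin n → ℝ,
            ∑ d, ∑ e, ∑ b, ∑ c, H b c d e = ∑ b, ∑ c, ∑ d, ∑ e, H b c d e := by
          intro H
          calc ∑ d, ∑ e, ∑ b, ∑ c, H b c d e = ∑ d, ∑ b, ∑ e, ∑ c, H b c d e :=
                Finset.sum_congr rfl fun i _ => Finset.sum_comm
            _ = ∑ b, ∑ d, ∑ e, ∑ c, H b c d e := Finset.sum_comm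
            _ = ∑ b, ∑ d, ∑ c, ∑ e, H b c d e :=
                Finset.sum_congr rfl fun p _ => Finset.sum_congr rfl fun i _ => Finset.sum_comm
            _ = ∑ b, ∑ c, ∑ d, ∑ e, H b c d e := Finset.sum_congr rfl fun p _ => Finset.sum_comm
        have h4 : ∑ d, ∑ e, (∑ b, ∑ c, I b c d e) * (B * (rad G y {a, d, e} ^ 2 / 2)) =
            ∑ b, ∑ c, ∑ d, ∑ e, I b c d e * (B * (rad G y {a, d, e} ^ 2 / 2)) := by
          rw [← h3]
          simp only [Finset.sum_mul]
        rw [h4]
        simp only [Finset.sum_mul, ← Finset.sum_add_distrib]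
        refine Finset.sum_congr rfl fun b _ => Finset.sum_congr rfl fun c _ => Finset.sum_congr rfl fun d _ =>
          Finset.sum_congr rfl fun e _ => ?_
        ring
      rw [h2]
      simp only [hI2, hI3]
      simp only [← Finset.mul_sum]
      have h5 : ∑ i, ∑ j, rad G y {a, i, j} ^ 2 / 2 = (∑ i, ∑ j, rad G y {a, i, j} ^ 2) / 2 := by
        simp only [Finset.sum_div]
      rw [h5]
      ring
    simp only [h1, ← Finset.mul_sum]
    rfl
  rw [hE]
  linarith

end Pool.Agent.KF74
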