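import Pool.Agent.KF74.Sums

/-! # KF74/Sq3 (MP_82a190_co, helper74): the squares at rooted triples -/

namespace Pool.Agent.KF74

open Finset

variable {n : ℕ} (G : Finset (Finset (Fin n))) (y : Finset (Fin n) → ℝ)

/-- total mass, over ordered triples -/
noncomputable def YY : ℝ := ∑ a : Fin n, ∑ b : Fin n, ∑ c : Fin n, rad G y {a, b, c} ^ 2

theorem YY_nonneg : 0 ≤ YY G y :=
  Finset.sum_nonneg fun _ _ => Finset.sum_nonneg fun _ _ => Finset.sum_nonneg fun _ _ => sq_nonneg _

/-- colours of the extension of the root `a, b, c` by `z` -/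
noncomputable def pn (a b c z : Fin n) : Fin 3 × Fin 3 × Fin 3 :=
  (col G y {a, b, z}, col G y {a, c, z}, col G y {b, c, z})

/-- magnitudes at the root `a, b, c` and its extension by `z` -/
noncomputable def mn (a b c z : Fin n) : Fin 4 → ℝ :=
  ![rad G y {a, b, c}, rad G y {a, b, z}, rad G y {a, c, z}, rad G y {b, c, z}]

theorem cx_012 (a b c d e : Fin n) : cx G y ![a, b, c, d, e] {0, 1, 2} = col G y {a, b, c} := by
  simp [cx, Finset.image_insert, Finset.image_singleton]

theorem rx_012 (a b c d e : Fin n) : rx G y ![a, b, c, d, e] {0, 1, 2} = rad G y {a, b, c} := by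
  simp [rx, Finset.image_insert, Finset.image_singleton]

theorem cx_014 (a b c d e : Fin n) : cx G y ![a, b, c, d, e] {0, 1, 4} = col G y {a, b, e} := by
  simp only [cx, Finset.image_insert, Finset.image_singleton]
  rfl

theorem cx_034 (a b c d e : Fin n) : cx G y ![a, b, c, d, e] {0, 3, 4} = col G y {a, d, e} := by
  simp only [cx, Finset.image_insert, Finset.image_singleton]
  rfl

theorem rx_034 (a b c d e : Fin n) : rx G y ![a, b, c, d, e] {0, 3, 4} = rad G y {a, d, e} := by
  simp only [rx, Finset.image_insert, Finset.image_singleton]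
  rfl

theorem pat3 (a b c d e : Fin n) : pat (cx G y ![a, b, c, d, e]) 3 = pn G y a b c d := by
  simp only [pat, pn, cx, Finset.image_insert, Finset.image_singleton]
  rfl

theorem pat4 (a b c d e : Fin n) : pat (cx G y ![a, b, c, d, e]) 4 = pn G y a b c e := by
  simp only [pat, pn, cx, Finset.image_insert, Finset.image_singleton]
  rfl

theorem mag3 (a b c d e : Fin n) : mag (rx G y ![a, b, c, d, e]) 3 = mn G y a b c d := by
  simp only [mag, mn, rx, Finset.image_insert, Finset.image_singleton]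
  rfl

theorem mag4 (a b c d e : Fin n) : mag (rx G y ![a, b, c, d, e]) 4 = mn G y a b c e := by
  simp only [mag, mn, rx, Finset.image_insert, Finset.image_singleton]
  rfl

/-- the sum of all squared magnitudes over 4-tuples -/
theorem sum_mn_sq (m : Fin 4) : ∑ a, ∑ b, ∑ c, ∑ z, mn G y a b c z m ^ 2 = n * YY G y := by
  unfold YY
  fin_cases m
  · simp only [mn, Fin.zero_eta, Fin.isValue, Matrix.cons_val_zero, sum_const, card_univ, Fintype.card_fin,
      nsmul_eq_mul, Finset.mul_sum]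
  · simp only [mn, Fin.mk_one, Fin.isValue, Matrix.cons_val_one, Matrix.cons_val_zero]
    rw [Finset.mul_sum]
    refine Finset.sum_congr rfl fun a _ => ?_
    rw [Finset.mul_sum]
    refine Finset.sum_congr rfl fun b _ => ?_
    simp
  · simp only [mn, Fin.reduceFinMk, Matrix.cons_val]
    rw [Finset.mul_sum]
    refine Finset.sum_congr rfl fun a _ => ?_
    simp
  · simp only [mn, Fin.reduceFinMk, Matrix.cons_val]
    simp

/-- bound of a quadratic form in four magnitudes -/
theorem quad4_le {B : ℝ} (b : Fin 4 → Fin 4 → ℝ) (hB : ∀ m m', |b m m'| ≤ B) (v : Fin 4 → ℝ) :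
    |∑ m, ∑ m', b m m' * (v m * v m')| ≤ 4 * B * ∑ m, v m ^ 2 := by
  have hB0 : 0 ≤ B := (abs_nonneg _).trans (hB 0 0)
  have h1 : |∑ m, ∑ m', b m m' * (v m * v m')| ≤ ∑ m, ∑ m', B * ((v m ^ 2 + v m' ^ 2) / 2) := by
    refine (Finset.abs_sum_le_sum_abs _ _).trans (Finset.sum_le_sum fun m _ => ?_)
    refine (Finset.abs_sum_le_sum_abs _ _).trans (Finset.sum_le_sum fun m' _ => ?_)
    rw [abs_mul]
    refine mul_le_mul (hB m m') ?_ (abs_nonneg _) hB0
    rw [abs_le]
    constructor <;> nlinarith [sq_nonneg (v m + v m'), sq_nonneg (v m - v m')]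
  refine h1.trans (le_of_eq ?_)
  simp only [Fin.sum_univ_four]
  ring

/-- square at a rooted triple as a form in the features -/
theorem form3 (b : Ix → Ix → ℝ) (a c d : Fin n) (S : Finset (Fin n)) :
    ∑ z ∈ S, ∑ z' ∈ S, ∑ m, ∑ m', b (pn G y a c d z, m) (pn G y a c d z', m') *
      (mn G y a c d z m * mn G y a c d z' m') =
    ∑ i : Ix, ∑ j : Ix, b i j * ((∑ z ∈ S, if pn G y a c d z = i.1 then mn G y a c d z i.2 else 0) *
      (∑ z ∈ S, if pn G y a c d z = j.1 then mn G y a c d z j.2 else 0)) := by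
  have h1 : ∀ i j : Ix, b i j * ((∑ z ∈ S, if pn G y a c d z = i.1 then mn G y a c d z i.2 else 0) *
      (∑ z ∈ S, if pn G y a c d z = j.1 then mn G y a c d z j.2 else 0)) =
      ∑ z ∈ S, ∑ z' ∈ S, (if pn G y a c d z = i.1 then (if pn G y a c d z' = j.1 then
        b i j * (mn G y a c d z i.2 * mn G y a c d z' j.2) else 0) else 0) := by
    intro i j
    rw [Finset.sum_mul_sum, Finset.mul_sum]
    refine Finset.sum_congr rfl fun z _ => ?_
    rw [Finset.mul_sum]
    refine Finset.sum_congr rfl fun z' _ => ?_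
    split_ifs <;> simp
  simp only [h1]
  have h2 : ∀ F : Ix → Ix → Fin n → Fin n → ℝ, ∑ i, ∑ j, ∑ z ∈ S, ∑ z' ∈ S, F i j z z' =
      ∑ z ∈ S, ∑ z' ∈ S, ∑ i, ∑ j, F i j z z' := by
    intro F
    calc ∑ i, ∑ j, ∑ z ∈ S, ∑ z' ∈ S, F i j z z' = ∑ i, ∑ z ∈ S, ∑ j, ∑ z' ∈ S, F i j z z' :=
          Finset.sum_congr rfl fun i _ => Finset.sum_comm
      _ = ∑ z ∈ S, ∑ i, ∑ j, ∑ z' ∈ S, F i j z z' := Finset.sum_comm
      _ = ∑ z ∈ S, ∑ i, ∑ z' ∈ S, ∑ j, F i j z z' :=
          Finset.sum_congr rfl fun z _ => Finset.sum_congr rfl fun i _ => Finset.sum_comm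
      _ = ∑ z ∈ S, ∑ z' ∈ S, ∑ i, ∑ j, F i j z z' := Finset.sum_congr rfl fun z _ => Finset.sum_comm
  rw [h2]
  refine Finset.sum_congr rfl fun z _ => Finset.sum_congr rfl fun z' _ => ?_
  symm
  rw [Fintype.sum_prod_type, Finset.sum_eq_single (pn G y a c d z)]
  · refine Finset.sum_congr rfl fun m _ => ?_
    rw [Fintype.sum_prod_type, Finset.sum_eq_single (pn G y a c d z')]
    · refine Finset.sum_congr rfl fun m' _ => ?_
      simp
    · intro p _ hp
      refine Finset.sum_eq_zero fun m' _ => ?_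
      simp [Ne.symm hp]
    · intro h
      exact absurd (Finset.mem_univ _) h
  · intro p _ hp
    refine Finset.sum_eq_zero fun m _ => Finset.sum_eq_zero fun j _ => ?_
    simp [Ne.symm hp]
  · intro h
    exact absurd (Finset.mem_univ _) h

/-- **The squares at rooted triples are almost nonnegative.** -/
theorem sos3_lower (K : Cert) (hK : K.Valid) {B : ℝ} (hB : ∀ κ i j, |K.B3 κ i j| ≤ B) :
    -(16 * B * n * YY G y) ≤ ∑ x ∈ J5 (Fin n), K.sos3 (cx G y x) (rx G y x) := by
  have hB0 : 0 ≤ B := (abs_nonneg _).trans (hB 0 ((0, 0, 0), 0) ((0, 0, 0), 0))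
  rw [sum_J5]
  have h1 : ∀ a b c : Fin n, -(4 * B * ∑ z, ∑ m, mn G y a b c z m ^ 2) ≤
      if inj3 a b c then
        (∑ d ∈ R3 a b c, ∑ e ∈ R3 a b c, K.sos3 (cx G y ![a, b, c, d, e]) (rx G y ![a, b, c, d, e])) -
          ∑ d ∈ R3 a b c, K.sos3 (cx G y ![a, b, c, d, d]) (rx G y ![a, b, c, d, d]) else 0 := by
    intro a b c
    have h0 : 0 ≤ 4 * B * ∑ z, ∑ m, mn G y a b c z m ^ 2 := by positivity
    split_ifs with h
    · have h2 : ∀ d e, K.sos3 (cx G y ![a, b, c, d, e]) (rx G y ![a, b, c, d, e]) =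
          ∑ m, ∑ m', K.B3 (col G y {a, b, c}) (pn G y a b c d, m) (pn G y a b c e, m') *
            (mn G y a b c d m * mn G y a b c e m') := by
        intro d e
        unfold Cert.sos3
        rw [cx_012, pat3, pat4, mag3, mag4]
      simp only [h2]
      rw [form3]
      have h3 := hK.B3_psd (col G y {a, b, c})
        (fun i => ∑ z ∈ R3 a b c, if pn G y a b c z = i.1 then mn G y a b c z i.2 else 0)
      have h4 : ∑ d ∈ R3 a b c, ∑ m, ∑ m', K.B3 (col G y {a, b, c}) (pn G y a b c d, m) (pn G y a b c d, m') *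
          (mn G y a b c d m * mn G y a b c d m') ≤ 4 * B * ∑ z, ∑ m, mn G y a b c z m ^ 2 := by
        rw [Finset.mul_sum]
        refine (Finset.sum_le_sum (g := fun z => 4 * B * ∑ m, mn G y a b c z m ^ 2) fun z _ => ?_).trans
          (Finset.sum_le_sum_of_subset_of_nonneg (Finset.subset_univ _) fun z _ _ => by positivity)
        exact (le_abs_self _).trans (quad4_le _ (fun m m' => hB _ _ _) _)
      linarith
    · linarith
  refine le_trans (le_of_eq ?_) (Finset.sum_le_sum fun a _ => Finset.sum_le_sum fun b _ =>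
    Finset.sum_le_sum fun c _ => h1 a b c)
  simp only [Finset.sum_neg_distrib, ← Finset.mul_sum]
  have h5 : ∑ a, ∑ b, ∑ c, ∑ z, ∑ m, mn G y a b c z m ^ 2 = 4 * (n * YY G y) := by
    simp only [Fin.sum_univ_four, Finset.sum_add_distrib]
    rw [sum_mn_sq, sum_mn_sq, sum_mn_sq, sum_mn_sq]
    ring
  rw [h5]
  ring

end Pool.Agent.KF74
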