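import Pool.Agent.KF74.Defs

/-! # KF74/Sums (MP_82a190_co, helper74): sums over injective 5-tuples -/

namespace Pool.Agent.KF74

open Finset

section sums

variable {α : Type} [Fintype α] [DecidableEq α]

omit [DecidableEq α] in
theorem sum_cons {m : ℕ} (f : (Fin (m + 1) → α) → ℝ) :
    ∑ x, f x = ∑ a : α, ∑ x : Fin m → α, f (Matrix.vecCons a x) := by
  rw [← Fintype.sum_prod_type']
  refine (Fintype.sum_equiv (Fin.consEquiv (fun _ => α)) _ _ fun p => ?_).symm
  rfl

theorem sum_fin5 (f : (Fin 5 → α) → ℝ) :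
    ∑ x, f x = ∑ a, ∑ b, ∑ c, ∑ d, ∑ e, f ![a, b, c, d, e] := by
  simp only [sum_cons]
  refine Finset.sum_congr rfl fun a _ => Finset.sum_congr rfl fun b _ => Finset.sum_congr rfl fun c _ =>
    Finset.sum_congr rfl fun d _ => Finset.sum_congr rfl fun e _ => ?_
  rw [Fintype.sum_unique]
  congr 1

/-- pairwise different -/
def inj3 (a b c : α) : Prop := a ≠ b ∧ a ≠ c ∧ b ≠ c

instance (a b c : α) : Decidable (inj3 a b c) := by unfold inj3; infer_instance

/-- the other points -/
def R3 (a b c : α) : Finset α := univ.filter fun z => z ≠ a ∧ z ≠ b ∧ z ≠ c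

theorem mem_R3 {a b c z : α} : z ∈ R3 a b c ↔ z ≠ a ∧ z ≠ b ∧ z ≠ c := by simp [R3]

theorem inj5_iff {a b c d e : α} : Function.Injective ![a, b, c, d, e] ↔
    inj3 a b c ∧ d ∈ R3 a b c ∧ e ∈ R3 a b c ∧ d ≠ e := by
  simp only [mem_R3, inj3]
  constructor
  · intro h
    have key : ∀ i j : Fin 5, i ≠ j → (![a, b, c, d, e] : Fin 5 → α) i ≠ (![a, b, c, d, e] : Fin 5 → α) j :=
      fun i j hij h' => hij (h h')
    have h01 := key 0 1 (by decide)
    have h02 := key 0 2 (by decide)
    have h12 := key 1 2 (by decide)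
    have h30 := key 3 0 (by decide)
    have h31 := key 3 1 (by decide)
    have h32 := key 3 2 (by decide)
    have h40 := key 4 0 (by decide)
    have h41 := key 4 1 (by decide)
    have h42 := key 4 2 (by decide)
    have h34 := key 3 4 (by decide)
    exact ⟨⟨h01, h02, h12⟩, ⟨h30, h31, h32⟩, ⟨h40, h41, h42⟩, h34⟩
  · rintro ⟨⟨h01, h02, h12⟩, ⟨h30, h31, h32⟩, ⟨h40, h41, h42⟩, h34⟩ i j hij
    fin_cases i <;> fin_cases j <;> first | rfl | (exfalso; revert hij; simp; tauto)

/-- injective 5-tuples -/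
def J5 (α : Type) [Fintype α] [DecidableEq α] : Finset (Fin 5 → α) := univ.filter fun x => Function.Injective x

theorem sum_J5 (f : (Fin 5 → α) → ℝ) :
    ∑ x ∈ J5 α, f x = ∑ a, ∑ b, ∑ c, if inj3 a b c then
      (∑ d ∈ R3 a b c, ∑ e ∈ R3 a b c, f ![a, b, c, d, e]) - ∑ d ∈ R3 a b c, f ![a, b, c, d, d] else 0 := by
  unfold J5
  rw [Finset.sum_filter, sum_fin5]
  refine Finset.sum_congr rfl fun a _ => Finset.sum_congr rfl fun b _ => Finset.sum_congr rfl fun c _ => ?_
  by_cases h : inj3 a b c
  · rw [if_pos h, ← Finset.sum_sub_distrib]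
    have h1 : ∀ d e, (if Function.Injective ![a, b, c, d, e] then f ![a, b, c, d, e] else 0) =
        if d ∈ R3 a b c then (if e ∈ R3 a b c then (if d = e then 0 else f ![a, b, c, d, e]) else 0) else 0 := by
      intro d e
      by_cases h2 : d ∈ R3 a b c <;> by_cases h3 : e ∈ R3 a b c <;> by_cases h4 : d = e <;>
        simp [inj5_iff, h, h2, h3, h4]
    rw [Finset.sum_congr rfl fun d _ => Finset.sum_congr rfl fun e _ => h1 d e]
    have h5 : ∀ d, (∑ e, if d ∈ R3 a b c then (if e ∈ R3 a b c then (if d = e then 0 else f ![a, b, c, d, e]) else 0)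
        else 0) = if d ∈ R3 a b c then (∑ e ∈ R3 a b c, f ![a, b, c, d, e]) - f ![a, b, c, d, d] else 0 := by
      intro d
      by_cases h2 : d ∈ R3 a b c
      · simp only [h2, if_true]
        rw [← Finset.sum_filter]
        have h6 : (univ.filter fun e => e ∈ R3 a b c) = R3 a b c := by ext; simp
        rw [h6, ← Finset.add_sum_erase _ _ h2, ← Finset.add_sum_erase (R3 a b c) _ h2]
        simp only [if_true, zero_add, add_sub_cancel_left]
        refine Finset.sum_congr rfl fun e he => ?_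
        rw [if_neg]
        exact fun h => (Finset.ne_of_mem_erase he) h.symm
      · simp [h2]
    rw [Finset.sum_congr rfl fun d _ => h5 d, ← Finset.sum_filter]
    refine Finset.sum_congr ?_ fun _ _ => rfl
    ext; simp
  · rw [if_neg h]
    refine Finset.sum_eq_zero fun d _ => Finset.sum_eq_zero fun e _ => ?_
    rw [if_neg]
    rw [inj5_iff]
    tauto

end sums

section sym

variable {n : ℕ} (G : Finset (Finset (Fin n))) (y : Finset (Fin n) → ℝ)

/-- local colours at a tuple -/
noncomputable def cx (x : Fin 5 → Fin n) : LC := fun T => col G y (T.image x)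

/-- local magnitudes at a tuple -/
noncomputable def rx (x : Fin 5 → Fin n) : LR := fun T => rad G y (T.image x)

theorem at'_eq (f : LC → LR → ℝ) (x : Fin 5 → Fin n) (σ : Equiv.Perm (Fin 5)) :
    Cert.at' f (cx G y x) (rx G y x) σ = f (cx G y (x ∘ σ)) (rx G y (x ∘ σ)) := by
  unfold Cert.at' cx rx
  simp only [Finset.image_image]

theorem sum_perm (f : LC → LR → ℝ) (σ : Equiv.Perm (Fin 5)) :
    ∑ x ∈ J5 (Fin n), Cert.at' f (cx G y x) (rx G y x) σ = ∑ x ∈ J5 (Fin n), f (cx G y x) (rx G y x) := by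
  simp only [at'_eq]
  refine Finset.sum_bij' (fun x _ => x ∘ σ) (fun x _ => x ∘ σ.symm) ?_ ?_ ?_ ?_ ?_
  · intro x hx
    simp only [J5, Finset.mem_filter, Finset.mem_univ, true_and] at hx ⊢
    exact hx.comp σ.injective
  · intro x hx
    simp only [J5, Finset.mem_filter, Finset.mem_univ, true_and] at hx ⊢
    exact hx.comp σ.symm.injective
  · intro x _
    funext i
    simp
  · intro x _
    funext i
    simp
  · intro x _
    rfl

theorem sum_list (f : LC → LR → ℝ) (L : List (Equiv.Perm (Fin 5))) :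
    ∑ x ∈ J5 (Fin n), (L.map (Cert.at' f (cx G y x) (rx G y x))).sum =
      L.length * ∑ x ∈ J5 (Fin n), f (cx G y x) (rx G y x) := by
  induction L with
  | nil => simp
  | cons σ L ih =>
    simp only [List.map_cons, List.sum_cons, List.length_cons]
    rw [Finset.sum_add_distrib, ih, sum_perm]
    push_cast
    ring

theorem rad_nonneg (T : Finset (Fin n)) : 0 ≤ rad G y T := by
  unfold rad
  split_ifs
  · exact Real.sqrt_nonneg _
  · exact le_rfl

theorem rad_sq (T : Finset (Fin n)) : rad G y T ^ 2 = if T ∈ G then |y T| else 0 := by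
  unfold rad
  split_ifs
  · exact Real.sq_sqrt (abs_nonneg _)
  · simp

theorem rad_eq_zero {T : Finset (Fin n)} (h : col G y T = 0) : rad G y T = 0 := by
  unfold col at h
  unfold rad
  split_ifs at h ⊢ with h1 h2
  · simp at h
  · simp at h
  · rfl

theorem rad_pos {T : Finset (Fin n)} (h : col G y T = 1) : 0 < rad G y T := by
  unfold col at h
  unfold rad
  split_ifs at h ⊢ with h1 h2
  · exact Real.sqrt_pos.2 (abs_pos.2 h2.ne)
  · simp at h
  · simp at h

theorem sg_col (T : Finset (Fin n)) : sg (col G y T) * rad G y T ^ 2 = if T ∈ G then y T else 0 := by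
  rw [rad_sq]
  unfold col sg
  split_ifs with h1 h2
  · simp [abs_of_neg h2]
  · simp [abs_of_nonneg (not_lt.1 h2)]
  · simp

end sym

end Pool.Agent.KF74
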